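import Pool.Agent.X312.FN.Main
import Pool.Agent.X312.CH.AJ

/-!
# Functors on correspondences: the gap law, final forms
-/

open CategoryTheory AlgebraicGeometry

universe u v w

namespace Pool.Agent.X312.FN

open Module Polynomial
open Pool.Agent.H914 Pool.Agent.H914.VarClass Pool.Agent.H914.VarClass.Obj
  Pool.Agent.H914.WeilCohomology Pool.Agent.Y133.Half Pool.Agent.Y133.Half.Sys
  Pool.Agent.H281R3.HT Pool.Agent.W536.RR Pool.Agent.X312.RL

variable {k : Type u} [Field k] {𝒱 : VarClass k} {ops : CycleOps 𝒱}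
  {W : WeilCohomology.{u, v} ops} {F : Type w} [Field F] {σ : F →+* W.K} {X Y Z P : 𝒱.Obj}

/-- The gap law for a module over correspondences. -/
theorem mdl_law {V : 𝒱.Obj → Type w} [∀ X, AddCommGroup (V X)] [∀ X, Module F (V X)]
    {R : Ops W F V} (hM : IsMdl (algSys W) σ R) (X : 𝒱.Obj) (hf : ∀ n, Fine σ R (pw X n))
    (hn : ∀ n, HomEqNum W (pw X n)) (m : ℕ) :
    (∀ x : V (pw X m), x = 0) ∨ ∀ n, FiniteDimensional F (V (pw X n)) →
      gapBound (finrank W.K (W.H X)) (cycRank ops (pw X n)) m n ≤ finrank F (V (pw X n)) := by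
  unfold gapBound
  by_cases hne : ∀ x : V (pw X m), x = 0
  · exact Or.inl hne
  right
  intro n hfd
  rcases (algSys W).exists_one_or X with ⟨l, hl, hl1⟩ | h0
  swap
  · rw [← numDim_eq_cycRank W, h0, Nat.cast_zero, mul_zero]
    exact Nat.cast_nonneg _
  have hne' : (⊥ : Submodule F (V (pw X m))) ≠ ⊤ := by
    intro h
    apply hne
    intro x
    have h1 : x ∈ (⊤ : Submodule F (V (pw X m))) := Submodule.mem_top
    rw [← h, Submodule.mem_bot] at h1
    exact h1
  have hz : Stable R (fun _ => ⊥) := by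
    intro X Z a _ x hx
    rw [(Submodule.mem_bot F).1 hx, map_zero]
    exact Submodule.zero_mem _
  have ht : Stable R (fun _ => ⊤) := fun X Z a _ x _ => Submodule.mem_top
  have hfd' : FiniteDimensional F (⊤ : Submodule F (V (pw X n))) :=
    Module.Finite.equiv (Submodule.topEquiv).symm
  have key := hM.bound hl hl1 hf hz ht (fun _ => bot_le) hne' (le_refl (2 : ℝ)) n hfd'
  rw [finrank_bot, Nat.cast_zero, zero_add, finrank_top, Pool.Agent.X312.CH.cst_expand,
    numDim_eq_cycRank] at key
  rcases key with h | h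
  · exact h
  · have h1 := h (algSys W)
    have h2 := hn n
    rw [homEqNum_iff'] at h2
    have h3 : (2 : ℝ) * cycRank ops (pw X n) ≤ finrank W.K (algSpan W (pw X n)) := h1
    rw [← h2] at h3
    have h4 : (0 : ℝ) ≤ cycRank ops (pw X n) := Nat.cast_nonneg _
    have h5 : (cycRank ops (pw X n) : ℝ) = 0 := by linarith
    rw [h5, mul_zero]
    exact Nat.cast_nonneg _

/-- Linearly independent elements in a quotient. -/
lemma indep_of {M : Type w} [AddCommGroup M] [Module F M] (N' N : Submodule F M) {x : ℝ}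
    (h : FiniteDimensional F (N.map N'.mkQ) → x ≤ finrank F (N.map N'.mkQ)) :
    IndepModulo F (N : Set M) (N' : Set M) x := by
  have key : ∃ (n : ℕ) (b : Fin n → (N.map N'.mkQ)), x ≤ n ∧ LinearIndependent F b := by
    by_cases hfd : FiniteDimensional F (N.map N'.mkQ)
    · exact ⟨finrank F (N.map N'.mkQ), Module.finBasis F _, h hfd,
        (Module.finBasis F (N.map N'.mkQ)).linearIndependent⟩
    · obtain ⟨n, hn⟩ := exists_nat_ge x
      have h2 : (n : Cardinal) ≤ Module.rank F (N.map N'.mkQ) := by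
        have h3 : ¬ Module.rank F (N.map N'.mkQ) < Cardinal.aleph0 := by
          rw [Module.rank_lt_aleph0_iff]
          exact hfd
        exact (Cardinal.natCast_le_aleph0).trans (not_lt.1 h3)
      obtain ⟨a, ha⟩ := exists_linearIndependent_of_le_rank h2
      exact ⟨n, a, hn, ha⟩
  obtain ⟨n, b, hn, hb⟩ := key
  choose a ha ha' using fun i => Submodule.mem_map.1 (b i).2
  refine ⟨n, a, hn, ?_, ha⟩
  rw [Submodule.span_eq]
  have : (fun i => N'.mkQ (a i)) = fun i => (b i : M ⧸ N') := funext ha'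
  rw [this]
  exact hb.map' (Submodule.subtype _) (Submodule.ker_subtype _)

variable {C : CorrCat W σ}

/-- The quotient functor `N / N'` (as a family of subspaces of quotients). -/
noncomputable def CorrFunctor.quo (T : CorrFunctor C) {N' N : ∀ Z : 𝒱.Obj, Submodule F (T.M Z)}
    (hN' : T.IsStable N') (hN : T.IsStable N) : CorrFunctor C where
  M Z := (N Z).map (N' Z).mkQ
  map {Z Z'} a := ((N' Z).mapQ (N' Z') (T.map a) (fun x hx => hN' Z Z' a x hx)).restrict (by
    rintro _ ⟨x, hx, rfl⟩
    exact ⟨T.map a x, hN Z Z' a x hx, rfl⟩)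
  map_add {Z Z'} a b := by
    apply LinearMap.ext
    rintro ⟨_, x, hx, rfl⟩
    apply Subtype.ext
    change (N' Z').mkQ (T.map (a + b) x) = (N' Z').mkQ (T.map a x) + (N' Z').mkQ (T.map b x)
    rw [T.map_add, LinearMap.add_apply, _root_.map_add]
  map_smul {Z Z'} t a := by
    apply LinearMap.ext
    rintro ⟨_, x, hx, rfl⟩
    apply Subtype.ext
    change (N' Z').mkQ (T.map (t • a) x) = t • (N' Z').mkQ (T.map a x)
    rw [T.map_smul, LinearMap.smul_apply, _root_.map_smul]
  map_id Z := by
    apply LinearMap.ext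
    rintro ⟨_, x, hx, rfl⟩
    apply Subtype.ext
    change (N' Z).mkQ (T.map (C.id Z) x) = (N' Z).mkQ x
    rw [T.map_id]
    rfl
  map_comp {Z Z' Z''} a b := by
    apply LinearMap.ext
    rintro ⟨_, x, hx, rfl⟩
    apply Subtype.ext
    change (N' Z'').mkQ (T.map (C.comp a b) x) = (N' Z'').mkQ (T.map b (T.map a x))
    rw [T.map_comp]
    rfl

/-- **The gap law for functors on correspondences**: two stable families of subspaces. -/
theorem pair_law (hC : C.IsLawful) (T : CorrFunctor C) (X : 𝒱.Obj)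
    (hX : ∀ n, C.NumNil (pw X n)) (hn : ∀ n, HomEqNum W (pw X n))
    {N' N : ∀ Z : 𝒱.Obj, Submodule F (T.M Z)} (hN' : T.IsStable N') (hN : T.IsStable N) (m : ℕ) :
    N (pw X m) ≤ N' (pw X m) ∨
    ∀ n : ℕ, IndepModulo F (N (pw X n) : Set (T.M (pw X n))) (N' (pw X n) : Set (T.M (pw X n)))
      (gapBound (finrank W.K (W.H X)) (cycRank ops (pw X n)) m n) := by
  rcases mdl_law (f_isMdl hC (T.quo hN' hN)) X (fun n => f_fine hC (T.quo hN' hN) (hX n)) hn m
    with h | h
  · left
    intro x hx
    have h1 := h ⟨(N' (pw X m)).mkQ x, x, hx, rfl⟩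
    have h2 : (N' (pw X m)).mkQ x = 0 := congrArg Subtype.val h1
    rwa [Submodule.mkQ_apply, Submodule.Quotient.mk_eq_zero] at h2
  · right
    intro n
    exact indep_of _ _ (h n)

end Pool.Agent.X312.FN
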