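import Pool.Agent.X312.FN.Nat

/-!
# Combined gap laws
-/

open CategoryTheory AlgebraicGeometry

universe u v w

namespace Pool.Agent.X312.FN

open Module Polynomial
open Pool.Agent.H914 Pool.Agent.H914.VarClass Pool.Agent.H914.VarClass.Obj
  Pool.Agent.H914.WeilCohomology Pool.Agent.Y133.Half Pool.Agent.Y133.Half.Sys
  Pool.Agent.H281R3.HT Pool.Agent.W536.RR Pool.Agent.X312.RL

variable {k : Type u} [Field k] {𝒱 : VarClass k} {ops : CycleOps 𝒱}
  {W : WeilCohomology.{u, v} ops} {F : Type w} [Field F] {σ : F →+* W.K}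
  {C : CorrCat W σ} {S T : CorrFunctor C}

/-- A stable family of subspaces which is not zero is large. -/
theorem sub_law (hC : C.IsLawful) {N : ∀ Z : 𝒱.Obj, Submodule F (T.M Z)} (hN : T.IsStable N)
    (X : 𝒱.Obj) (hX : ∀ n, C.NumNil (pw X n)) (hn : ∀ n, HomEqNum W (pw X n)) (m : ℕ) :
    (∀ x ∈ N (pw X m), x = 0) ∨
    ∀ n : ℕ, DimAtLeast F (N (pw X n))
      (gapBound (finrank W.K (W.H X)) (cycRank ops (pw X n)) m n) := by
  rcases pair_law hC T X hX hn (bot_stable T) hN m with h | h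
  · exact Or.inl fun x hx => (Submodule.mem_bot F).1 (h hx)
  · right
    intro n
    obtain ⟨N', a, h1, h2, h3⟩ := h n
    refine ⟨N', fun i => ⟨a i, h3 i⟩, h1, ?_⟩
    rw [linearIndependent_iff'] at h2 ⊢
    intro s g hg i hi
    refine h2 s g ?_ i hi
    have h4 := congrArg (Submodule.subtype (N (pw X n))) hg
    rw [map_sum] at h4
    have h5 := congrArg (Submodule.mkQ (Submodule.span F
      ((⊥ : Submodule F (T.M (pw X n))) : Set (T.M (pw X n))))) h4
    rw [map_sum, map_zero, map_zero] at h5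
    rw [← h5]
    refine Finset.sum_congr rfl fun j _ => ?_
    rw [map_smul, map_smul]
    rfl

/-- Kernel and cokernel of a natural transformation. -/
theorem iso_law (hC : C.IsLawful) (R : Regulator S T)
    {N : ∀ Z : 𝒱.Obj, Submodule F (T.M Z)} (hN : T.IsStable N) (X : 𝒱.Obj)
    (hX : ∀ n, C.NumNil (pw X n)) (hn : ∀ n, HomEqNum W (pw X n)) (m : ℕ) :
    ((∀ x : S.M (pw X m), R.c _ x = 0 → x = 0) ∧ ∀ y ∈ N (pw X m), ∃ x, R.c _ x = y) ∨
    (∀ n : ℕ, DimAtLeast F (LinearMap.ker (R.c (pw X n)))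
      (gapBound (finrank W.K (W.H X)) (cycRank ops (pw X n)) m n)) ∨
    ∀ n : ℕ, IndepModulo F (N (pw X n) : Set (T.M (pw X n))) (Set.range (R.c (pw X n)))
      (gapBound (finrank W.K (W.H X)) (cycRank ops (pw X n)) m n) := by
  rcases kernel_law hC R X hX hn m with h | h
  · rcases coker_law hC R hN X hX hn m with h' | h'
    · exact Or.inl ⟨h, h'⟩
    · exact Or.inr (Or.inr h')
  · exact Or.inr (Or.inl h)

/-- The fixed vectors of an operator. -/
def opFix (f : ∀ Z : 𝒱.Obj, T.M Z →ₗ[F] T.M Z) (Z : 𝒱.Obj) : Submodule F (T.M Z) where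
  carrier := {x | f Z x = x}
  zero_mem' := map_zero _
  add_mem' {a b} (ha : f Z a = a) (hb : f Z b = b) := by
    change f Z (a + b) = a + b
    rw [map_add, ha, hb]
  smul_mem' t a (ha : f Z a = a) := by
    change f Z (t • a) = t • a
    rw [map_smul, ha]

/-- The fixed vectors of an operator `f` in the image of `f - 1`. -/
def opJor (f : ∀ Z : 𝒱.Obj, T.M Z →ₗ[F] T.M Z) (Z : 𝒱.Obj) : Submodule F (T.M Z) where
  carrier := {x | f Z x = x ∧ ∃ y, f Z y - y = x}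
  zero_mem' := ⟨map_zero _, 0, by rw [map_zero, sub_zero]⟩
  add_mem' := by
    rintro a b ⟨ha, y, hy⟩ ⟨hb, z, hz⟩
    refine ⟨by rw [map_add, ha, hb], y + z, ?_⟩
    rw [map_add, ← hy, ← hz]
    abel
  smul_mem' := by
    rintro t a ⟨ha, y, hy⟩
    refine ⟨by rw [map_smul, ha], t • y, ?_⟩
    rw [map_smul, ← hy, smul_sub]

lemma opFix_stable {f : ∀ Z : 𝒱.Obj, T.M Z →ₗ[F] T.M Z}
    (hf : ∀ (Z Z' : 𝒱.Obj) (a : C.A Z Z') (x : T.M Z), T.map a (f Z x) = f Z' (T.map a x)) :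
    T.IsStable (opFix f) := by
  intro X Y a x hx
  change f Y (T.map a x) = T.map a x
  rw [← hf, show f X x = x from hx]

lemma opJor_stable {f : ∀ Z : 𝒱.Obj, T.M Z →ₗ[F] T.M Z}
    (hf : ∀ (Z Z' : 𝒱.Obj) (a : C.A Z Z') (x : T.M Z), T.map a (f Z x) = f Z' (T.map a x)) :
    T.IsStable (opJor f) := by
  rintro X Y a x ⟨hx, y, hy⟩
  refine ⟨?_, T.map a y, ?_⟩
  · rw [← hf, hx]
  · rw [← hf, ← hy, map_sub]

/-- The three parts of the conjecture of Tate and Beilinson. -/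
theorem tb_law (hC : C.IsLawful) (R : Regulator S T)
    {f : ∀ Z : 𝒱.Obj, T.M Z →ₗ[F] T.M Z}
    (hf : ∀ (Z Z' : 𝒱.Obj) (a : C.A Z Z') (x : T.M Z), T.map a (f Z x) = f Z' (T.map a x))
    (X : 𝒱.Obj) (hX : ∀ n, C.NumNil (pw X n)) (hn : ∀ n, HomEqNum W (pw X n)) (m : ℕ) :
    ((∀ x : S.M (pw X m), R.c _ x = 0 → x = 0) ∧
      (∀ y : T.M (pw X m), f _ y = y → ∃ x, R.c _ x = y) ∧
      ∀ y : T.M (pw X m), f _ (f _ y - y) = f _ y - y → f _ y = y) ∨
    (∀ n : ℕ, DimAtLeast F (LinearMap.ker (R.c (pw X n)))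
      (gapBound (finrank W.K (W.H X)) (cycRank ops (pw X n)) m n)) ∨
    (∀ n : ℕ, IndepModulo F {y : T.M (pw X n) | f _ y = y} (Set.range (R.c (pw X n)))
      (gapBound (finrank W.K (W.H X)) (cycRank ops (pw X n)) m n)) ∨
    ∀ n : ℕ, DimAtLeast F (opJor f (pw X n))
      (gapBound (finrank W.K (W.H X)) (cycRank ops (pw X n)) m n) := by
  rcases iso_law hC R (opFix_stable hf) X hX hn m with h | h | h
  · rcases sub_law hC (opJor_stable hf) X hX hn m with h' | h'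
    · left
      refine ⟨h.1, fun y hy => h.2 y hy, fun y hy => ?_⟩
      exact sub_eq_zero.1 (h' _ ⟨hy, y, rfl⟩)
    · exact Or.inr (Or.inr (Or.inr h'))
  · exact Or.inr (Or.inl h)
  · exact Or.inr (Or.inr (Or.inl h))

end Pool.Agent.X312.FN
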