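import Pool.Agent.H914R2.CorrDefs

/-!
# Categories of algebraic correspondences and their modules: definitions
-/

open CategoryTheory AlgebraicGeometry

universe u v w

namespace Pool.Agent.X312.FN

open Pool.Agent.H914 Pool.Agent.H914.VarClass Pool.Agent.H914.VarClass.Obj
  Pool.Agent.H914.WeilCohomology

variable {k : Type u} [Field k] {𝒱 : VarClass k} {ops : CycleOps 𝒱}

/-- The classes of the algebraic cycles on `X` with coefficients in the field `F`, which is embedded
by `σ` in the coefficient field of the cohomology. -/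
def cycClasses (W : WeilCohomology.{u, v} ops) {F : Type w} [Field F] (σ : F →+* W.K)
    (X : 𝒱.Obj) : AddSubgroup (W.H X) :=
  AddSubgroup.closure {c | ∃ (t : F) (p : ℕ) (z : X.Cycles), X.IsCyc p z ∧ c = σ t • W.cl X z}

/-- The class of the diagonal. -/
noncomputable def diagClass (W : WeilCohomology.{u, v} ops) (X : 𝒱.Obj) : W.H (X.prod X) :=
  W.push (diag X) 1

/-- The composition of cohomological correspondences. -/
noncomputable def composite (W : WeilCohomology.{u, v} ops) {X Y Z : 𝒱.Obj} (a : W.H (X.prod Y))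
    (b : W.H (Y.prod Z)) : W.H (X.prod Z) :=
  W.push (p13 X Y Z) (W.map (p12 X Y Z) a * W.map (p23 X Y Z) b)

/-- The intersection number of two classes. -/
noncomputable def number (W : WeilCohomology.{u, v} ops) {X : 𝒱.Obj} (a b : W.H X) : W.K :=
  W.tr X (a * b)

/-- Data of a category of algebraic correspondences with coefficients in `F` (in the intended use
`A X Y` is the Chow group `CH(X × Y)` of cycles of all codimensions with coefficients in `F`, or its
quotient by an adequate equivalence relation finer than homological equivalence). -/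
structure CorrCat (W : WeilCohomology.{u, v} ops) {F : Type w} [Field F] (σ : F →+* W.K) where
  /-- the correspondences from `X` to `Y` -/
  A : 𝒱.Obj → 𝒱.Obj → Type w
  [grp : ∀ X Y, AddCommGroup (A X Y)]
  [mod : ∀ X Y, Module F (A X Y)]
  /-- the class of the diagonal -/
  id : ∀ X, A X X
  /-- the composition: first `a`, then `b` -/
  comp : ∀ {X Y Z : 𝒱.Obj}, A X Y → A Y Z → A X Z
  /-- the cohomology class of a correspondence -/
  cl : ∀ {X Y : 𝒱.Obj}, A X Y → W.H (X.prod Y)

attribute [instance] CorrCat.grp CorrCat.mod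

variable {W : WeilCohomology.{u, v} ops} {F : Type w} [Field F] {σ : F →+* W.K}

/-- The cohomology classes are additive and compatible with composition, and the classes of
correspondences from `X` to `Y` are exactly the classes of the algebraic cycles on `X × Y` with
coefficients in `F`. -/
structure CorrCat.IsLawful (C : CorrCat W σ) : Prop where
  cl_add : ∀ {X Y : 𝒱.Obj} (a b : C.A X Y), C.cl (a + b) = C.cl a + C.cl b
  cl_smul : ∀ {X Y : 𝒱.Obj} (t : F) (a : C.A X Y), C.cl (t • a) = σ t • C.cl a
  cl_id : ∀ X : 𝒱.Obj, C.cl (C.id X) = diagClass W X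
  cl_comp : ∀ {X Y Z : 𝒱.Obj} (a : C.A X Y) (b : C.A Y Z),
    C.cl (C.comp a b) = composite W (C.cl a) (C.cl b)
  range_cl : ∀ (X Y : 𝒱.Obj) (h : W.H (X.prod Y)),
    (∃ a : C.A X Y, C.cl a = h) ↔ h ∈ cycClasses W σ (X.prod Y)

/-- The correspondence `a` is numerically trivial. -/
def CorrCat.NumTriv (C : CorrCat W σ) {X Y : 𝒱.Obj} (a : C.A X Y) : Prop :=
  ∀ b : C.A X Y, number W (C.cl a) (C.cl b) = 0

/-- The powers of a self-correspondence for the composition. -/
def CorrCat.pow (C : CorrCat W σ) {X : 𝒱.Obj} (a : C.A X X) : ℕ → C.A X X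
  | 0 => C.id X
  | n + 1 => C.comp (C.pow a n) a

/-- The numerically trivial self-correspondences of `X` (sums of correspondences of arbitrary degrees)
are nilpotent. -/
def CorrCat.NumNil (C : CorrCat W σ) (X : 𝒱.Obj) : Prop :=
  ∀ a : C.A X X, C.NumTriv a → ∃ n, C.pow a n = 0

/-- An additive functor from the category of correspondences to vector spaces over `F`. -/
structure CorrFunctor (C : CorrCat W σ) where
  /-- the vector space attached to `X` -/
  M : 𝒱.Obj → Type w
  [grp : ∀ X, AddCommGroup (M X)]
  [mod : ∀ X, Module F (M X)]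
  /-- the action of correspondences -/
  map : ∀ {X Y : 𝒱.Obj}, C.A X Y → (M X →ₗ[F] M Y)
  map_add : ∀ {X Y : 𝒱.Obj} (a b : C.A X Y), map (a + b) = map a + map b
  map_smul : ∀ {X Y : 𝒱.Obj} (t : F) (a : C.A X Y), map (t • a) = t • map a
  map_id : ∀ X : 𝒱.Obj, map (C.id X) = LinearMap.id
  map_comp : ∀ {X Y Z : 𝒱.Obj} (a : C.A X Y) (b : C.A Y Z), map (C.comp a b) = map b ∘ₗ map a

attribute [instance] CorrFunctor.grp CorrFunctor.mod

/-- The family of subspaces `N X` of `M X` is stable under correspondences. -/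
def CorrFunctor.IsStable {C : CorrCat W σ} (T : CorrFunctor C)
    (N : ∀ X : 𝒱.Obj, Submodule F (T.M X)) : Prop :=
  ∀ (X Y : 𝒱.Obj) (a : C.A X Y) (x : T.M X), x ∈ N X → T.map a x ∈ N Y

/-- The number `(1 - 4 (m + 3) b ^ (m + 5) log (n + 1) / n) ρ`, with `m` and `n` replaced by `m + 1` and
`n + 1`. -/
noncomputable def gapBound (b ρ m n : ℕ) : ℝ :=
  (1 - 4 * (m + 4) * (b : ℝ) ^ (m + 6) * Real.log (n + 2) / (n + 1)) * ρ

/-- The dimension of the vector space `M` over `F` is at least `x`. -/
def DimAtLeast (F : Type w) [Field F] (M : Type w) [AddCommGroup M] [Module F M] (x : ℝ) : Prop :=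
  ∃ (N : ℕ) (a : Fin N → M), x ≤ N ∧ LinearIndependent F a

/-- There are at least `x` elements of `S` which are linearly independent over `F` modulo the
subspace generated by `T`. -/
def IndepModulo (F : Type w) [Field F] {M : Type w} [AddCommGroup M] [Module F M] (S T : Set M)
    (x : ℝ) : Prop :=
  ∃ (N : ℕ) (a : Fin N → M), x ≤ N ∧
    LinearIndependent F (fun i => (Submodule.span F T).mkQ (a i)) ∧ ∀ i, a i ∈ S

end Pool.Agent.X312.FN
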