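import Pool.Agent.X312.FN.Rat

/-!
# Functors on correspondences: the gap law
-/

open CategoryTheory AlgebraicGeometry

universe u v w

namespace Pool.Agent.X312.FN

open Module Polynomial
open Pool.Agent.H914 Pool.Agent.H914.VarClass Pool.Agent.H914.VarClass.Obj
  Pool.Agent.H914.WeilCohomology Pool.Agent.Y133.Half Pool.Agent.Y133.Half.Sys
  Pool.Agent.H281R3.HT Pool.Agent.W536.RR Pool.Agent.X312.RL

variable {k : Type u} [Field k] {𝒱 : VarClass k} {ops : CycleOps 𝒱}
  {W : WeilCohomology.{u, v} ops} {F : Type w} [Field F] {σ : F →+* W.K} {X Y Z P : 𝒱.Obj}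
  {C : CorrCat W σ} (hC : C.IsLawful) (T : CorrFunctor C)

/-- The pairs of operators given by correspondences. -/
def fOps (T : CorrFunctor C) : Ops W F T.M :=
  fun Z Z' => {a | ∃ Δ : C.A Z Z', a.1 = T.map Δ ∧ a.2 = W.corr (C.cl Δ)}

include hC

lemma cl_cyc (a : C.A X Y) : C.cl a ∈ cycClasses W σ (X.prod Y) := (hC.range_cl X Y _).1 ⟨a, rfl⟩

lemma cl_alg' (a : C.A X Y) : C.cl a ∈ algSpan W (X.prod Y) := cyc_le_alg (cl_cyc hC a)

lemma corr_id (X : 𝒱.Obj) : W.corr (C.cl (C.id X)) = LinearMap.id := by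
  rw [hC.cl_id, diagClass, corr_diag_one]

lemma corr_comp'' (a : C.A X Y) (b : C.A Y Z) :
    W.corr (C.cl (C.comp a b)) = W.corr (C.cl b) ∘ₗ W.corr (C.cl a) := by
  rw [hC.cl_comp, composite]
  exact corr_comp' _ ((algSys W).even (cl_alg' hC b))

lemma cl_zero : C.cl (0 : C.A X Y) = 0 := by
  have h := hC.cl_smul (0 : F) (0 : C.A X Y)
  rwa [zero_smul, map_zero, zero_smul] at h

lemma f_isMdl : IsMdl (algSys W) σ (fOps T) := by
  refine ⟨?_, ?_, ?_, ?_, ?_⟩
  · rintro Z Z' a b ⟨Δ, ha, ha'⟩ ⟨Δ', hb, hb'⟩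
    refine ⟨Δ + Δ', ?_, ?_⟩
    · change a.1 + b.1 = _
      rw [ha, hb, T.map_add]
    · change a.2 + b.2 = _
      rw [ha', hb', hC.cl_add, corr_add]
  · rintro Z Z' q a ⟨Δ, ha, ha'⟩
    refine ⟨q • Δ, ?_, ?_⟩
    · change q • a.1 = _
      rw [ha, T.map_smul]
    · change _ • a.2 = _
      rw [ha', hC.cl_smul, corr_smul]
  · intro Z
    exact ⟨C.id Z, (T.map_id Z).symm, (corr_id hC Z).symm⟩
  · rintro Z Z' Z'' a b ⟨Δ, ha, ha'⟩ ⟨Δ', hb, hb'⟩
    refine ⟨C.comp Δ' Δ, ?_, ?_⟩
    · change a.1 ∘ₗ b.1 = _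
      rw [ha, hb, T.map_comp]
    · change a.2 ∘ₗ b.2 = _
      rw [ha', hb', corr_comp'' hC]
  · intro Z Z'
    have h1 : Prod.snd '' fOps T Z Z' =
        (corrL W Z Z') '' (cycClasses W σ (Z.prod Z') : Set (W.H (Z.prod Z'))) := by
      ext u
      constructor
      · rintro ⟨a, ⟨Δ, _, ha⟩, rfl⟩
        exact ⟨C.cl Δ, cl_cyc hC Δ, ha.symm⟩
      · rintro ⟨c, hc, rfl⟩
        obtain ⟨Δ, rfl⟩ := (hC.range_cl Z Z' c).2 hc
        exact ⟨(T.map Δ, W.corr (C.cl Δ)), ⟨Δ, rfl, rfl⟩, rfl⟩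
    rw [h1, ← Submodule.map_span, span_cyc]
    rfl

/-- Numerically trivial correspondences. -/
lemma numTriv_iff (a : C.A X Y) : C.NumTriv a ↔ C.cl a ∈ (algSys W).Num (X.prod Y) := by
  constructor
  · intro h
    refine ⟨cl_alg' hC a, fun d hd => ?_⟩
    have hd' : d ∈ algSpan W (X.prod Y) := hd
    rw [← span_cyc (σ := σ)] at hd'
    have key : ∀ x ∈ cycClasses W σ (X.prod Y), W.tr (X.prod Y) (C.cl a * x) = 0 := by
      intro x hx
      obtain ⟨b, rfl⟩ := (hC.range_cl X Y x).2 hx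
      exact h b
    clear hd
    induction hd' using Submodule.span_induction with
    | mem x hx => exact key x hx
    | zero => rw [mul_zero, map_zero]
    | add x y _ _ hx hy => rw [mul_add, map_add, hx, hy, add_zero]
    | smul c x _ hx => rw [mul_smul_comm, map_smul, hx, smul_zero]
  · intro h b
    exact h.2 _ (cl_alg' hC b)

lemma pow_corr (a : C.A P P) (n : ℕ) :
    W.corr (C.cl (C.pow a n)) = (W.corr (C.cl a) : Module.End W.K (W.H P)) ^ n := by
  induction n with
  | zero => rw [pow_zero, CorrCat.pow, corr_id hC]; rfl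
  | succ n ih => rw [pow_succ', CorrCat.pow, corr_comp'' hC, ih]; rfl

lemma pow_map (a : C.A P P) (n : ℕ) :
    T.map (C.pow a n) = (T.map a : Module.End F (T.M P)) ^ n := by
  induction n with
  | zero => rw [pow_zero, CorrCat.pow, T.map_id]; rfl
  | succ n ih => rw [pow_succ', CorrCat.pow, T.map_comp, ih]; rfl

lemma map_zero' : T.map (0 : C.A X Y) = 0 := by
  have h := T.map_smul (0 : F) (0 : C.A X Y)
  rwa [zero_smul, zero_smul] at h

/-- A polynomial with coefficients in `F` in a correspondence is numerically trivial. -/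
lemma exists_poly (Δ : C.A P P) :
    ∃ μ : F[X], μ ≠ 0 ∧ (aeval (W.corr (C.cl Δ) : Module.End W.K (W.H P)) (μ.map σ) :
      Module.End W.K (W.H P)) ∈ (algSys W).NOp P P := by
  have hspan : Submodule.span W.K (cycClasses W σ (P.prod P) : Set (W.H (P.prod P))) =
      algSpan W (P.prod P) := span_cyc _
  obtain ⟨s, hs1, hs2⟩ := Submodule.fg_span_iff_fg_span_finset_subset
    (cycClasses W σ (P.prod P) : Set (W.H (P.prod P))) |>.1 (by
      rw [hspan]; exact IsNoetherian.noetherian _)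
  choose q hq using fun (i : Fin (s.card + 1)) (c : s) =>
    tr_cyc (cyc_mul (cl_cyc hC (C.pow Δ i)) (hs1 c.2))
  let f : (Fin (s.card + 1) → F) →ₗ[F] (s → F) :=
    { toFun := fun v c => ∑ i, v i * q i c
      map_add' := fun v w => by
        funext c
        simp only [Pi.add_apply, add_mul, Finset.sum_add_distrib]
      map_smul' := fun r v => by
        funext c
        simp only [Pi.smul_apply, smul_eq_mul, RingHom.id_apply, Finset.mul_sum, mul_assoc] }
  have hker : ∃ v, v ≠ 0 ∧ f v = 0 := by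
    have h3 : ¬ Function.Injective f := by
      intro hinj
      have h4 := LinearMap.finrank_le_finrank_of_injective hinj
      rw [Module.finrank_fin_fun, Module.finrank_fintype_fun_eq_card, Fintype.card_coe] at h4
      omega
    rw [← LinearMap.ker_eq_bot] at h3
    obtain ⟨v, hv, hv0⟩ := Submodule.exists_mem_ne_zero_of_ne_bot h3
    exact ⟨v, hv0, LinearMap.mem_ker.1 hv⟩
  obtain ⟨v, hv0, hv⟩ := hker
  let μ : F[X] := ∑ i : Fin (s.card + 1), monomial (i : ℕ) (v i)
  have hμ : ∀ i : Fin (s.card + 1), μ.coeff i = v i := by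
    intro i
    change (∑ j : Fin (s.card + 1), monomial (j : ℕ) (v j)).coeff i = v i
    rw [finsetSum_coeff, Finset.sum_eq_single i]
    · rw [coeff_monomial, if_pos rfl]
    · intro j _ hj
      rw [coeff_monomial, if_neg]
      intro h
      exact hj (Fin.ext h)
    · intro h
      exact absurd (Finset.mem_univ i) h
  refine ⟨μ, ?_, ?_⟩
  · intro h0
    apply hv0
    funext i
    rw [← hμ i, h0]
    rfl
  · have h5 : aeval (W.corr (C.cl Δ) : Module.End W.K (W.H P)) (μ.map σ) =
        W.corr (∑ i : Fin (s.card + 1), σ (v i) • C.cl (C.pow Δ i)) := by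
      change aeval (W.corr (C.cl Δ) : Module.End W.K (W.H P))
        ((∑ i : Fin (s.card + 1), monomial (i : ℕ) (v i)).map _) = _
      rw [Polynomial.map_sum, map_sum]
      change _ = corrL W P P _
      rw [map_sum]
      refine Finset.sum_congr rfl fun i _ => ?_
      rw [map_monomial, aeval_monomial, ← pow_corr hC, map_smul, Algebra.smul_def]
      rfl
    rw [h5]
    have hmem : (∑ i : Fin (s.card + 1), σ (v i) • C.cl (C.pow Δ i)) ∈
        algSpan W (P.prod P) :=
      Submodule.sum_mem _ fun i _ => Submodule.smul_mem _ _ (cl_alg' hC _)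
    refine NOp.corr ⟨hmem, fun d hd => ?_⟩
    have hd' : d ∈ Submodule.span W.K (s : Set (W.H (P.prod P))) := by
      rw [← hs2, hspan]; exact hd
    have key : ∀ d ∈ s, W.tr _ ((∑ i : Fin (s.card + 1), σ (v i) • C.cl (C.pow Δ i)) * d) = 0 := by
      intro d hd
      rw [Finset.sum_mul, map_sum]
      have h7 : ∀ i : Fin (s.card + 1), W.tr _ (σ (v i) • C.cl (C.pow Δ i) * d) =
          σ (v i * q i ⟨d, hd⟩) := by
        intro i
        rw [smul_mul_assoc, map_smul]
        have h8 := hq i ⟨d, hd⟩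
        rw [h8, map_mul]
        rfl
      rw [Finset.sum_congr rfl fun i _ => h7 i, ← map_sum]
      have h9 : ∑ i, v i * q i ⟨d, hd⟩ = 0 := congrFun hv ⟨d, hd⟩
      rw [h9, map_zero]
    clear hd
    induction hd' using Submodule.span_induction with
    | mem x hx => exact key x hx
    | zero => rw [mul_zero, map_zero]
    | add x y _ _ hx hy => rw [mul_add, map_add, hx, hy, add_zero]
    | smul c x _ hx => rw [mul_smul_comm, map_smul, hx, smul_zero]

lemma f_fine (hnil : C.NumNil P) : Fine σ (fOps T) P := by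
  have hM := f_isMdl hC T
  refine ⟨?_, ?_⟩
  · rintro x hx
    obtain ⟨Δ₀, h01, h02⟩ := id hx
    obtain ⟨μ, hμ0, hμ⟩ := exists_poly hC Δ₀
    rw [← h02] at hμ
    have hy := hM.aeval_mem hx μ
    obtain ⟨Δ, h1, h2⟩ := hy
    change aeval x.1 μ = T.map Δ at h1
    change aeval x.2 (μ.map σ) = W.corr (C.cl Δ) at h2
    have h3 : C.NumTriv Δ := by
      rw [numTriv_iff hC]
      rw [h2] at hμ
      obtain ⟨c, hc, hc'⟩ := mem_NOp.1 hμ
      have h4 : c = C.cl Δ := corrL_injective P P hc'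
      rw [← h4]
      exact hc
    obtain ⟨n, hn⟩ := hnil Δ h3
    refine ⟨μ ^ n, pow_ne_zero n hμ0, ?_, ?_⟩
    · rw [map_pow]
      have h5 := pow_map hC T Δ n
      rw [hn, map_zero' hC] at h5
      rw [h1]
      exact h5.symm
    · rw [Polynomial.map_pow, map_pow]
      have h5 := pow_corr hC Δ n
      rw [hn, cl_zero hC, corr_zero] at h5
      rw [h2]
      exact h5.symm
  · rintro x ⟨Δ, h1, h2⟩ hxx hx0
    have h3 : C.NumTriv Δ := by
      rw [numTriv_iff hC]
      have h4 : C.cl Δ = 0 := by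
        apply corr_inj
        rw [← h2, hx0]
      rw [h4]
      exact Submodule.zero_mem _
    obtain ⟨n, hn⟩ := hnil Δ h3
    have h5 := pow_map hC T Δ n
    rw [hn, map_zero' hC, ← h1] at h5
    have hid : IsIdempotentElem (x.1 : Module.End F (T.M P)) := hxx
    rcases Nat.eq_zero_or_pos n with h0 | h0
    · subst h0
      rw [pow_zero] at h5
      have : (x.1 : Module.End F (T.M P)) = x.1 * 1 := (mul_one _).symm
      rw [← h5, mul_zero] at this
      exact this
    · obtain ⟨n', rfl⟩ : ∃ n', n = n' + 1 := ⟨n - 1, by omega⟩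
      rw [IsIdempotentElem.pow_succ_eq n' hid] at h5
      exact h5.symm

end Pool.Agent.X312.FN
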