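import Pool.Agent.X312.FN.Defs

/-!
# Natural transformations and group actions: definitions
-/

open CategoryTheory AlgebraicGeometry

universe u v w

namespace Pool.Agent.X312.FN

open Pool.Agent.H914 Pool.Agent.H914.VarClass Pool.Agent.H914.VarClass.Obj
  Pool.Agent.H914.WeilCohomology

variable {k : Type u} [Field k] {𝒱 : VarClass k} {ops : CycleOps 𝒱}
  {W : WeilCohomology.{u, v} ops} {F : Type w} [Field F] {σ : F →+* W.K} {C : CorrCat W σ}

/-- A natural transformation between additive functors on correspondences, for example a cycle class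
map, a regulator or an Abel-Jacobi map. -/
structure Regulator (S T : CorrFunctor C) where
  /-- the maps -/
  c : ∀ Z : 𝒱.Obj, S.M Z →ₗ[F] T.M Z
  nat : ∀ {Z Z' : 𝒱.Obj} (a : C.A Z Z') (x : S.M Z), c Z' (S.map a x) = T.map a (c Z x)

/-- A linear action of the group `G` which commutes with the correspondences. -/
structure GroupAction (G : Type w) [Group G] (T : CorrFunctor C) where
  /-- the action -/
  ρ : ∀ Z : 𝒱.Obj, G →* Module.End F (T.M Z)
  comm : ∀ {Z Z' : 𝒱.Obj} (a : C.A Z Z') (g : G) (x : T.M Z),
    T.map a (ρ Z g x) = ρ Z' g (T.map a x)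

/-- The element `x` is fixed by the group. -/
def GroupAction.Fixed {G : Type w} [Group G] {T : CorrFunctor C} (r : GroupAction G T)
    {Z : 𝒱.Obj} (x : T.M Z) : Prop :=
  ∀ g : G, r.ρ Z g x = x

/-- A linear action of the group `G`; each correspondence commutes with a subgroup of finite index
(for example the Galois group of a field of definition). -/
structure VirtualAction (G : Type w) [Group G] (T : CorrFunctor C) where
  /-- the action -/
  ρ : ∀ Z : 𝒱.Obj, G →* Module.End F (T.M Z)
  comm : ∀ {Z Z' : 𝒱.Obj} (a : C.A Z Z'), ∃ U : Subgroup G, U.FiniteIndex ∧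
    ∀ g ∈ U, ∀ x : T.M Z, T.map a (ρ Z g x) = ρ Z' g (T.map a x)

/-- The element `x` is fixed by a subgroup of finite index. -/
def VirtualAction.TateClass {G : Type w} [Group G] {T : CorrFunctor C} (r : VirtualAction G T)
    {Z : 𝒱.Obj} (x : T.M Z) : Prop :=
  ∃ U : Subgroup G, U.FiniteIndex ∧ ∀ g ∈ U, r.ρ Z g x = x

end Pool.Agent.X312.FN
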