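import Pool.Agent.X312.FN.Zero
import Pool.Agent.X312.FN.NatDefs

/-!
# Natural transformations and group actions: gap laws
-/

open CategoryTheory AlgebraicGeometry

universe u v w

namespace Pool.Agent.X312.FN

open Module Polynomial
open Pool.Agent.H914 Pool.Agent.H914.VarClass Pool.Agent.H914.VarClass.Obj
  Pool.Agent.H914.WeilCohomology Pool.Agent.Y133.Half Pool.Agent.Y133.Half.Sys
  Pool.Agent.H281R3.HT Pool.Agent.W536.RR Pool.Agent.X312.RL

variable {k : Type u} [Field k] {𝒱 : VarClass k} {ops : CycleOps 𝒱}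
  {W : WeilCohomology.{u, v} ops} {F : Type w} [Field F] {σ : F →+* W.K}
  {C : CorrCat W σ} {S T : CorrFunctor C}

lemma ker_stable (R : Regulator S T) : S.IsStable (fun Z => LinearMap.ker (R.c Z)) := by
  intro X Y a x hx
  rw [LinearMap.mem_ker] at hx ⊢
  rw [R.nat, hx, map_zero]

lemma range_stable (R : Regulator S T) : T.IsStable (fun Z => LinearMap.range (R.c Z)) := by
  rintro X Y a _ ⟨x, rfl⟩
  exact ⟨S.map a x, R.nat a x⟩

lemma bot_stable (T : CorrFunctor C) : T.IsStable (fun _ => ⊥) := by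
  intro X Y a x hx
  rw [(Submodule.mem_bot F).1 hx, map_zero]
  exact Submodule.zero_mem _

lemma top_stable (T : CorrFunctor C) : T.IsStable (fun _ => ⊤) :=
  fun _ _ _ _ _ => Submodule.mem_top

/-- The fixed vectors. -/
def GroupAction.fix {G : Type w} [Group G] (r : GroupAction G T) (Z : 𝒱.Obj) :
    Submodule F (T.M Z) where
  carrier := {x | r.Fixed x}
  zero_mem' g := map_zero _
  add_mem' {a b} ha hb g := by rw [map_add, ha g, hb g]
  smul_mem' t a ha g := by rw [map_smul, ha g]

lemma fix_stable {G : Type w} [Group G] (r : GroupAction G T) : T.IsStable r.fix := by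
  intro X Y a x hx g
  rw [← r.comm, hx g]

/-- The Tate classes. -/
def VirtualAction.tate {G : Type w} [Group G] (r : VirtualAction G T) (Z : 𝒱.Obj) :
    Submodule F (T.M Z) where
  carrier := {x | r.TateClass x}
  zero_mem' := ⟨⊤, inferInstance, fun g _ => map_zero _⟩
  add_mem' := by
    rintro a b ⟨U, hU, ha⟩ ⟨V, hV, hb⟩
    exact ⟨U ⊓ V, inferInstance, fun g hg => by rw [map_add, ha g hg.1, hb g hg.2]⟩
  smul_mem' := by
    rintro t a ⟨U, hU, ha⟩
    exact ⟨U, hU, fun g hg => by rw [map_smul, ha g hg]⟩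

lemma tate_stable {G : Type w} [Group G] (r : VirtualAction G T) : T.IsStable r.tate := by
  rintro X Y a x ⟨U, hU, hx⟩
  obtain ⟨V, hV, hc⟩ := r.comm a
  refine ⟨U ⊓ V, inferInstance, fun g hg => ?_⟩
  rw [← hc g hg.2, hx g hg.1]

/-- The kernel of a natural transformation. -/
theorem kernel_law (hC : C.IsLawful) (R : Regulator S T) (X : 𝒱.Obj)
    (hX : ∀ n, C.NumNil (pw X n)) (hn : ∀ n, HomEqNum W (pw X n)) (m : ℕ) :
    (∀ x : S.M (pw X m), R.c _ x = 0 → x = 0) ∨
    ∀ n : ℕ, DimAtLeast F (LinearMap.ker (R.c (pw X n)))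
      (gapBound (finrank W.K (W.H X)) (cycRank ops (pw X n)) m n) := by
  rcases pair_law hC S X hX hn (bot_stable S) (ker_stable R) m with h | h
  · exact Or.inl fun x hx => (Submodule.mem_bot F).1 (h hx)
  · right
    intro n
    obtain ⟨N, a, h1, h2, h3⟩ := h n
    refine ⟨N, fun i => ⟨a i, h3 i⟩, h1, ?_⟩
    rw [linearIndependent_iff'] at h2 ⊢
    intro s g hg i hi
    refine h2 s g ?_ i hi
    have h4 := congrArg (Submodule.subtype (LinearMap.ker (R.c (pw X n)))) hg
    rw [map_sum] at h4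
    have h5 := congrArg (Submodule.mkQ (Submodule.span F
      ((⊥ : Submodule F (S.M (pw X n))) : Set (S.M (pw X n))))) h4
    rw [map_sum, map_zero, map_zero] at h5
    rw [← h5]
    refine Finset.sum_congr rfl fun j _ => ?_
    rw [map_smul, map_smul]
    rfl

/-- The cokernel of a natural transformation in a stable family. -/
theorem coker_law (hC : C.IsLawful) (R : Regulator S T)
    {N : ∀ Z : 𝒱.Obj, Submodule F (T.M Z)} (hN : T.IsStable N) (X : 𝒱.Obj)
    (hX : ∀ n, C.NumNil (pw X n)) (hn : ∀ n, HomEqNum W (pw X n)) (m : ℕ) :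
    (∀ y ∈ N (pw X m), ∃ x, R.c _ x = y) ∨
    ∀ n : ℕ, IndepModulo F (N (pw X n) : Set (T.M (pw X n))) (Set.range (R.c (pw X n)))
      (gapBound (finrank W.K (W.H X)) (cycRank ops (pw X n)) m n) := by
  rcases pair_law hC T X hX hn (range_stable R) hN m with h | h
  · exact Or.inl fun y hy => h hy
  · exact Or.inr h

end Pool.Agent.X312.FN
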