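import Pool.Agent.X312.FN.Defs

/-!
# Pairings between functors on correspondences: definitions
-/

open CategoryTheory AlgebraicGeometry

universe u v w

namespace Pool.Agent.X312.FN

open Pool.Agent.H914 Pool.Agent.H914.VarClass Pool.Agent.H914.VarClass.Obj
  Pool.Agent.H914.WeilCohomology

variable {k : Type u} [Field k] {𝒱 : VarClass k} {ops : CycleOps 𝒱}
  {W : WeilCohomology.{u, v} ops} {F : Type w} [Field F] {σ : F →+* W.K} {C : CorrCat W σ}

/-- The pairings `⟨ , ⟩ : T(Z) × S(Z) → F` are linear in the first variable, and the action of each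
correspondence on `T` has adjoint maps. -/
structure IsPairing (T S : CorrFunctor C) (p : ∀ Z : 𝒱.Obj, T.M Z → S.M Z → F) : Prop where
  add : ∀ (Z : 𝒱.Obj) (x y : T.M Z) (s : S.M Z), p Z (x + y) s = p Z x s + p Z y s
  smul : ∀ (Z : 𝒱.Obj) (t : F) (x : T.M Z) (s : S.M Z), p Z (t • x) s = t * p Z x s
  adjoint : ∀ (Z Z' : 𝒱.Obj) (a : C.A Z Z') (s : S.M Z'), ∃ s' : S.M Z, ∀ x : T.M Z,
    p Z' (T.map a x) s = p Z x s'

end Pool.Agent.X312.FN
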