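import Pool.Agent.X312.FN.Comb
import Pool.Agent.X312.FN.PairDefs

/-!
# Pairings and weights: gap laws
-/

open CategoryTheory AlgebraicGeometry

universe u v w

namespace Pool.Agent.X312.FN

open Module Polynomial
open Pool.Agent.H914 Pool.Agent.H914.VarClass Pool.Agent.H914.VarClass.Obj
  Pool.Agent.H914.WeilCohomology Pool.Agent.Y133.Half Pool.Agent.Y133.Half.Sys
  Pool.Agent.H281R3.HT Pool.Agent.W536.RR Pool.Agent.X312.RL

variable {k : Type u} [Field k] {𝒱 : VarClass k} {ops : CycleOps 𝒱}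
  {W : WeilCohomology.{u, v} ops} {F : Type w} [Field F] {σ : F →+* W.K}
  {C : CorrCat W σ} {S T : CorrFunctor C}

/-- The left kernel. -/
def leftKer {p : ∀ Z : 𝒱.Obj, T.M Z → S.M Z → F} (hp : IsPairing T S p) (Z : 𝒱.Obj) :
    Submodule F (T.M Z) where
  carrier := {x | ∀ s, p Z x s = 0}
  zero_mem' s := by
    have h := hp.smul Z 0 0 s
    rwa [zero_smul, zero_mul] at h
  add_mem' {a b} ha hb s := by rw [hp.add, ha s, hb s, add_zero]
  smul_mem' t a ha s := by rw [hp.smul, ha s, mul_zero]

lemma leftKer_stable {p : ∀ Z : 𝒱.Obj, T.M Z → S.M Z → F} (hp : IsPairing T S p) :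
    T.IsStable (leftKer hp) := by
  intro X Y a x hx s
  obtain ⟨s', hs'⟩ := hp.adjoint X Y a s
  rw [hs']
  exact hx s'

lemma dim_of_indep {M : Type w} [AddCommGroup M] [Module F M] {N : Submodule F M} {x : ℝ}
    (h : IndepModulo F (N : Set M) ((⊥ : Submodule F M) : Set M) x) :
    ∃ (r : ℕ) (a : Fin r → M), x ≤ r ∧ LinearIndependent F a ∧ ∀ i, a i ∈ N := by
  obtain ⟨r, a, h1, h2, h3⟩ := h
  refine ⟨r, a, h1, ?_, h3⟩
  exact LinearIndependent.of_comp _ h2

/-- The gap law for left kernels. -/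
theorem left_law (hC : C.IsLawful) {p : ∀ Z : 𝒱.Obj, T.M Z → S.M Z → F} (hp : IsPairing T S p)
    (X : 𝒱.Obj) (hX : ∀ n, C.NumNil (pw X n)) (hn : ∀ n, HomEqNum W (pw X n)) (m : ℕ) :
    (∀ x : T.M (pw X m), (∀ s, p _ x s = 0) → x = 0) ∨
    ∀ n : ℕ, ∃ (r : ℕ) (a : Fin r → T.M (pw X n)),
      gapBound (finrank W.K (W.H X)) (cycRank ops (pw X n)) m n ≤ r ∧ LinearIndependent F a ∧
        ∀ i s, p _ (a i) s = 0 := by
  rcases pair_law hC T X hX hn (bot_stable T) (leftKer_stable hp) m with h | h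
  · exact Or.inl fun x hx => (Submodule.mem_bot F).1 (h hx)
  · right
    intro n
    obtain ⟨r, a, h1, h2, h3⟩ := dim_of_indep (h n)
    exact ⟨r, a, h1, h2, h3⟩

/-- One of the weight spaces is large. -/
theorem weight_law (hC : C.IsLawful) (T : CorrFunctor C) (w' : 𝒱.Obj → ℕ) (hw : ∀ Z, 0 < w' Z)
    (G : ∀ Z : 𝒱.Obj, Fin (w' Z) → Submodule F (T.M Z)) (hG : ∀ Z, ⨆ j, G Z j = ⊤)
    (X : 𝒱.Obj) (hX : ∀ n, C.NumNil (pw X n)) (hn : ∀ n, HomEqNum W (pw X n)) (m : ℕ) :
    (∀ x : T.M (pw X m), x = 0) ∨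
    ∀ n : ℕ, ∃ j, DimAtLeast F (G (pw X n) j)
      (gapBound (finrank W.K (W.H X)) (cycRank ops (pw X n)) m n / w' (pw X n)) := by
  classical
  rcases mdl_law (f_isMdl hC T) X (fun n => f_fine hC T (hX n)) hn m with h | h
  · exact Or.inl h
  right
  intro n
  have h0 := hw (pw X n)
  by_cases hfd : ∀ j, FiniteDimensional F (G (pw X n) j)
  · have hfin : FiniteDimensional F (T.M (pw X n)) := by
      have h1 : FiniteDimensional F (⨆ j, G (pw X n) j : Submodule F (T.M (pw X n))) :=
        Submodule.finite_iSup _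
      rw [hG] at h1
      exact Module.Finite.equiv Submodule.topEquiv
    have h2 := h n hfin
    have h3 : finrank F (T.M (pw X n)) ≤ ∑ j, finrank F (G (pw X n) j) := by
      have h4 : finrank F (⨆ j, G (pw X n) j : Submodule F (T.M (pw X n))) ≤
          ∑ j, finrank F (G (pw X n) j) := by
        have key : ∀ s : Finset (Fin (w' (pw X n))),
            finrank F (s.sup (G (pw X n)) : Submodule F (T.M (pw X n))) ≤
              ∑ j ∈ s, finrank F (G (pw X n) j) := by
          intro s
          induction s using Finset.induction_on with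
          | empty => simp
          | insert a s ha ih =>
            rw [Finset.sup_insert, Finset.sum_insert ha]
            exact (Submodule.finrank_add_le_finrank_add_finrank _ _).trans
              (Nat.add_le_add_left ih _)
        have h5 := key Finset.univ
        rwa [Finset.sup_univ_eq_iSup] at h5
      rw [hG, finrank_top] at h4
      exact h4
    by_contra hne
    push Not at hne
    have h5 : ∀ j, (finrank F (G (pw X n) j) : ℝ) <
        gapBound (finrank W.K (W.H X)) (cycRank ops (pw X n)) m n / w' (pw X n) := by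
      intro j
      by_contra hj
      push Not at hj
      refine hne j ?_
      have := hfd j
      exact exists_indep (fun _ => hj)
    have h6 : (∑ j, (finrank F (G (pw X n) j) : ℝ)) <
        ∑ _j : Fin (w' (pw X n)),
          gapBound (finrank W.K (W.H X)) (cycRank ops (pw X n)) m n / w' (pw X n) := by
      refine Finset.sum_lt_sum_of_nonempty ?_ (fun j _ => h5 j)
      exact ⟨⟨0, h0⟩, Finset.mem_univ _⟩
    rw [Finset.sum_const, Finset.card_univ, Fintype.card_fin, nsmul_eq_mul,
      mul_div_cancel₀ _ (by exact_mod_cast h0.ne')] at h6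
    have h7 : (finrank F (T.M (pw X n)) : ℝ) ≤ ∑ j, (finrank F (G (pw X n) j) : ℝ) := by
      exact_mod_cast h3
    linarith
  · push Not at hfd
    obtain ⟨j, hj⟩ := hfd
    exact ⟨j, exists_indep (fun h => absurd h hj)⟩

end Pool.Agent.X312.FN
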