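import Pool.Agent.X312.FN.Defs
import Pool.Agent.X312.CH.Main

/-!
# Classes of cycles with coefficients
-/

open CategoryTheory AlgebraicGeometry

universe u v w

namespace Pool.Agent.X312.FN

open Module Polynomial
open Pool.Agent.H914 Pool.Agent.H914.VarClass Pool.Agent.H914.VarClass.Obj
  Pool.Agent.H914.WeilCohomology Pool.Agent.Y133.Half Pool.Agent.Y133.Half.Sys
  Pool.Agent.H281R3.HT Pool.Agent.W536.RR Pool.Agent.X312.RL

variable {k : Type u} [Field k] {𝒱 : VarClass k} {ops : CycleOps 𝒱}
  {W : WeilCohomology.{u, v} ops} {F : Type w} [Field F] {σ : F →+* W.K} {X Y Z P : 𝒱.Obj}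

lemma cyc_le_alg {c : W.H X} (hc : c ∈ cycClasses W σ X) : c ∈ algSpan W X := by
  induction hc using AddSubgroup.closure_induction with
  | mem x hx =>
    obtain ⟨t, p, z, hz, rfl⟩ := hx
    exact Submodule.smul_mem _ _ (Submodule.subset_span (Set.mem_iUnion.2 ⟨p, z, hz, rfl⟩))
  | zero => exact Submodule.zero_mem _
  | add x y _ _ hx hy => exact Submodule.add_mem _ hx hy
  | neg x _ hx => exact Submodule.neg_mem _ hx

lemma cl_mem_cyc {p : ℕ} {z : X.Cycles} (hz : X.IsCyc p z) : W.cl X z ∈ cycClasses W σ X :=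
  AddSubgroup.subset_closure ⟨1, p, z, hz, by rw [map_one, one_smul]⟩

lemma span_cyc (X : 𝒱.Obj) : Submodule.span W.K (cycClasses W σ X : Set (W.H X)) = algSpan W X := by
  apply le_antisymm
  · rw [Submodule.span_le]
    exact fun c hc => cyc_le_alg hc
  · intro c hc
    refine algSpan_induction (p := fun c => c ∈ Submodule.span W.K (cycClasses W σ X : Set (W.H X)))
      ?_ ?_ ?_ ?_ hc
    · exact Submodule.zero_mem _
    · intro a b ha hb; exact Submodule.add_mem _ ha hb
    · intro t a ha; exact Submodule.smul_mem _ _ ha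
    · intro j z hz
      exact Submodule.subset_span (cl_mem_cyc hz)

lemma cyc_smul (t : F) {c : W.H X} (hc : c ∈ cycClasses W σ X) : σ t • c ∈ cycClasses W σ X := by
  induction hc using AddSubgroup.closure_induction with
  | mem x hx =>
    obtain ⟨s, p, z, hz, rfl⟩ := hx
    exact AddSubgroup.subset_closure ⟨t * s, p, z, hz, by rw [map_mul, mul_smul]⟩
  | zero => rw [smul_zero]; exact AddSubgroup.zero_mem _
  | add x y _ _ hx hy => rw [smul_add]; exact AddSubgroup.add_mem _ hx hy
  | neg x _ hx => rw [smul_neg]; exact AddSubgroup.neg_mem _ hx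

lemma cyc_mul {c d : W.H X} (hc : c ∈ cycClasses W σ X) (hd : d ∈ cycClasses W σ X) :
    c * d ∈ cycClasses W σ X := by
  induction hc using AddSubgroup.closure_induction with
  | mem x hx =>
    obtain ⟨s, p, z, hz, rfl⟩ := hx
    induction hd using AddSubgroup.closure_induction with
    | mem y hy =>
      obtain ⟨t, q, w, hw, rfl⟩ := hy
      refine AddSubgroup.subset_closure ⟨s * t, p + q, ops.mul z w, ops.mul_mem hz hw, ?_⟩
      rw [W.cl_mul, smul_mul_smul_comm, map_mul]
    | zero => rw [mul_zero]; exact AddSubgroup.zero_mem _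
    | add x y _ _ hx hy => rw [mul_add]; exact AddSubgroup.add_mem _ hx hy
    | neg x _ hx => rw [mul_neg]; exact AddSubgroup.neg_mem _ hx
  | zero => rw [zero_mul]; exact AddSubgroup.zero_mem _
  | add x y _ _ hx hy => rw [add_mul]; exact AddSubgroup.add_mem _ hx hy
  | neg x _ hx => rw [neg_mul]; exact AddSubgroup.neg_mem _ hx

/-- The field `F` has characteristic zero. -/
lemma exists_rat (q : ℚ) : ∃ t : F, σ t = (q : W.K) := by
  haveI : CharZero F := σ.charZero
  exact ⟨(q : F), map_ratCast σ q⟩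

/-- The orientations of the classes have values in `F`. -/
lemma tr_cyc {c : W.H X} (hc : c ∈ cycClasses W σ X) : ∃ t : F, W.tr X c = σ t := by
  induction hc using AddSubgroup.closure_induction with
  | mem x hx =>
    obtain ⟨s, p, z, hz, rfl⟩ := hx
    by_cases hi : p = X.dim
    · subst hi
      obtain ⟨t, ht⟩ := exists_rat (σ := σ) (X.V.degCycle z)
      exact ⟨s * t, by rw [map_smul, W.tr_cl hz, map_mul, ht]; rfl⟩
    · exact ⟨0, by rw [map_smul, W.tr_eq_zero (W.cl_mem hz) (by omega), map_zero, smul_zero]⟩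
  | zero => exact ⟨0, by rw [map_zero, map_zero]⟩
  | add x y _ _ hx hy =>
    obtain ⟨s, hs⟩ := hx
    obtain ⟨t, ht⟩ := hy
    exact ⟨s + t, by rw [map_add, map_add, hs, ht]⟩
  | neg x _ hx =>
    obtain ⟨s, hs⟩ := hx
    exact ⟨-s, by rw [map_neg, map_neg, hs]⟩

end Pool.Agent.X312.FN
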