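import Pool.Agent.X312.FN.Law

/-!
# Functors on correspondences: vanishing or large dimension
-/

open CategoryTheory AlgebraicGeometry

universe u v w

namespace Pool.Agent.X312.FN

open Module Polynomial
open Pool.Agent.H914 Pool.Agent.H914.VarClass Pool.Agent.H914.VarClass.Obj
  Pool.Agent.H914.WeilCohomology Pool.Agent.Y133.Half Pool.Agent.Y133.Half.Sys
  Pool.Agent.H281R3.HT Pool.Agent.W536.RR Pool.Agent.X312.RL

variable {k : Type u} [Field k] {𝒱 : VarClass k} {ops : CycleOps 𝒱}
  {W : WeilCohomology.{u, v} ops} {F : Type w} [Field F] {σ : F →+* W.K}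
  {C : CorrCat W σ}

lemma exists_indep {M : Type w} [AddCommGroup M] [Module F M] {x : ℝ}
    (h : FiniteDimensional F M → x ≤ finrank F M) :
    ∃ (n : ℕ) (b : Fin n → M), x ≤ n ∧ LinearIndependent F b := by
  by_cases hfd : FiniteDimensional F M
  · exact ⟨finrank F M, Module.finBasis F _, h hfd, (Module.finBasis F M).linearIndependent⟩
  · obtain ⟨n, hn⟩ := exists_nat_ge x
    have h2 : (n : Cardinal) ≤ Module.rank F M := by
      have h3 : ¬ Module.rank F M < Cardinal.aleph0 := by
        rw [Module.rank_lt_aleph0_iff]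
        exact hfd
      exact (Cardinal.natCast_le_aleph0).trans (not_lt.1 h3)
    obtain ⟨a, ha⟩ := exists_linearIndependent_of_le_rank h2
    exact ⟨n, a, hn, ha⟩

/-- **The gap law for functors on correspondences.** -/
theorem zero_law (hC : C.IsLawful) (T : CorrFunctor C) (X : 𝒱.Obj)
    (hX : ∀ n, C.NumNil (pw X n)) (hn : ∀ n, HomEqNum W (pw X n)) (m : ℕ) :
    (∀ x : T.M (pw X m), x = 0) ∨
    ∀ n : ℕ, DimAtLeast F (T.M (pw X n))
      (gapBound (finrank W.K (W.H X)) (cycRank ops (pw X n)) m n) := by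
  rcases mdl_law (f_isMdl hC T) X (fun n => f_fine hC T (hX n)) hn m with h | h
  · exact Or.inl h
  · exact Or.inr fun n => exists_indep (h n)

end Pool.Agent.X312.FN
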